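import Pool.Agent.Q69.CR.Z

/-!
# Lang–Trotter in families: Cramér's theorem for all statistics of the Frobenius traces

Let `a_j, b_j`, `j = 1, ..., k`, be arbitrary polynomials in `d` variables over `ℤ`, and consider the `k` curves
`E_j(ν) : y ^ 2 = x ^ 3 + a_j(ν) x + b_j(ν)`, `ν ∈ ℤ ^ d`. Let `w(p, t)` be any weights with `|w| ≤ 1`, functions of the vector `t` of
the `k` Frobenius traces at `p`, and let `S(ν)` be the sum of `w(p, t_p(ν))` over the primes `p ≤ x` at which all curves are smooth. For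
one curve and `w(p, t) = 1` if `t = r` and `0` otherwise `S` is the number of the primes `p ≤ x` with `a_p = r`, counted by Lang and
Trotter; for `w(p, t) = t / (2 √p)` it is the sum of the normalised traces. In the model the values at the primes are independent,
each with its law over the residues `ν` modulo `p`; let `M` be the mean and `V` the variance of `S` in the model,
`Ψ(t) = log E exp (t (S - M))` and `m(t) = Ψ'(t)`, the mean of `S - M` under the tilted law.

It is proved, for boxes of parameters `ν` as small as this is possible up to the constant in the exponent: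

* (Cramér's theorem) for `v₀ ≤ t ^ 2 V`, `0 < t ≤ T` and every box with sides at least `(d + 1) x ^ (K t ^ 2 V)` the proportion of the
  `ν` with `S(ν) ≥ M + m(t)` lies between `exp (- (1 + ε) J)` and `exp (- (1 - ε) J)`, where `J = t m(t) - Ψ(t)` is the Legendre transform;
* (moderate deviations) for `y₀ ≤ y ≤ δ √V` and every box with sides at least `(d + 1) x ^ (K y ^ 2)` the proportion of the `ν` with
  `S(ν) ≥ M + y √V` lies between `exp (- (1 + ε) y ^ 2 / 2)` and `exp (- (1 - ε) y ^ 2 / 2)`.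

The constants depend on `T` and `ε` only, not on the curves, the weights, `x` and the position of the box (the lower tails are the upper
tails for `- w`). So the deviations of every statistic of the Frobenius traces at the primes `p ≤ x` have the probabilities of the
independent model at all scales, from the Gaussian fluctuations of the order `√V` to deviations of the order `V`, in every polynomial
family of (tuples of) elliptic curves over `ℚ`.
-/

set_option autoImplicit false

namespace Pool.Agent.Results.MP_f1937f_nt.CramerTheorem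

open Finset

/-- The number of the solutions `(x, y)` of `y² = x³ + A x + B` modulo `p`. -/
def points (p : ℕ) (A B : ℤ) : ℕ :=
  ((range p ×ˢ range p).filter
    (fun xy : ℕ × ℕ => (p : ℤ) ∣ (xy.2 : ℤ) ^ 2 - ((xy.1 : ℤ) ^ 3 + A * xy.1 + B))).card

open Classical in
/-- The weight at the prime `p` of the curves `y² = x³ + A j x + B j`: it is `w p t` for the vector `t` of their traces of Frobenius
`t j = p + 1 - #E_j(F_p) = p - points p (A j) (B j)`, if all curves are smooth modulo `p`; it is `0` if `p` divides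
`2 (4 (A j)³ + 27 (B j)²)` for some `j`. -/
noncomputable def weight {k : ℕ} (w : ℕ → (Fin k → ℤ) → ℝ) (A B : Fin k → ℤ) (p : ℕ) : ℝ :=
  if ∃ j, (p : ℤ) ∣ 2 * (4 * A j ^ 3 + 27 * B j ^ 2) then 0 else w p fun j => (p : ℤ) - points p (A j) (B j)

/-- The weight at the prime `p` as a function of the parameters. -/
noncomputable def value {k d : ℕ} (w : ℕ → (Fin k → ℤ) → ℝ) (a b : Fin k → MvPolynomial (Fin d) ℤ) (p : ℕ) (ν : Fin d → ℤ) : ℝ :=
  weight w (fun j => MvPolynomial.eval ν (a j)) (fun j => MvPolynomial.eval ν (b j)) p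

/-- The primes up to `x`. -/
def primes (x : ℕ) : Finset ℕ := (range (x + 1)).filter Nat.Prime

/-- The average of `f` over the residues `ν` modulo `p`. -/
noncomputable def average (d p : ℕ) (f : (Fin d → ℤ) → ℝ) : ℝ :=
  (∑ ν ∈ Fintype.piFinset fun _ : Fin d => range p, f fun i => (ν i : ℤ)) / (p : ℝ) ^ d

/-- The mean `M` of the sum of the `f p` over the primes `p ≤ x` in the model. -/
noncomputable def modelMean (d x : ℕ) (f : ℕ → (Fin d → ℤ) → ℝ) : ℝ := ∑ p ∈ primes x, average d p (f p)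

/-- The variance `V` of the sum of the `f p` over the primes `p ≤ x` in the model. -/
noncomputable def modelVariance (d x : ℕ) (f : ℕ → (Fin d → ℤ) → ℝ) : ℝ :=
  ∑ p ∈ primes x, (average d p (fun ν => f p ν ^ 2) - average d p (f p) ^ 2)

/-- The logarithm `Ψ(t)` of the exponential moment `E exp (t (S - M))` of the sum `S` in the model. -/
noncomputable def logMoment (d x : ℕ) (f : ℕ → (Fin d → ℤ) → ℝ) (t : ℝ) : ℝ :=
  ∑ p ∈ primes x, Real.log (average d p fun ν => Real.exp (t * (f p ν - average d p (f p))))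

/-- The mean `m(t)` of `S - M` under the tilted law, the derivative of `Ψ`: the sum over `p ≤ x` of the quotients
`E (f_p - E f_p) exp (t (f_p - E f_p)) / E exp (t (f_p - E f_p))`. -/
noncomputable def tiltedMean (d x : ℕ) (f : ℕ → (Fin d → ℤ) → ℝ) (t : ℝ) : ℝ :=
  ∑ p ∈ primes x, (average d p fun ν => (f p ν - average d p (f p)) * Real.exp (t * (f p ν - average d p (f p)))) /
    average d p fun ν => Real.exp (t * (f p ν - average d p (f p)))

/-- The box of the integer vectors `ν` with `m i ≤ ν i < m i + L i`. -/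
noncomputable def box {d : ℕ} (m : Fin d → ℤ) (L : Fin d → ℕ) : Finset (Fin d → ℤ) :=
  Fintype.piFinset fun i => Ico (m i) (m i + L i)

open Classical in
/-- The proportion of the `ν` of the box with the property `P`. -/
noncomputable def proportion {d : ℕ} (m : Fin d → ℤ) (L : Fin d → ℕ) (P : (Fin d → ℤ) → Prop) : ℝ :=
  (((box m L).filter P).card : ℝ) / ∏ i, (L i : ℝ)

/-! ### Proofs -/

lemma points_congr (p : ℕ) {A A' B B' : ℤ} (hA : (p : ℤ) ∣ A - A') (hB : (p : ℤ) ∣ B - B') :
    points p A B = points p A' B' := by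
  unfold points
  congr 1
  apply filter_congr
  intro xy _
  have h : (p : ℤ) ∣ ((xy.2 : ℤ) ^ 2 - ((xy.1 : ℤ) ^ 3 + A * xy.1 + B)) -
      ((xy.2 : ℤ) ^ 2 - ((xy.1 : ℤ) ^ 3 + A' * xy.1 + B')) := by
    have e : ((xy.2 : ℤ) ^ 2 - ((xy.1 : ℤ) ^ 3 + A * xy.1 + B)) -
      ((xy.2 : ℤ) ^ 2 - ((xy.1 : ℤ) ^ 3 + A' * xy.1 + B')) = -((A - A') * xy.1 + (B - B')) := by ring
    rw [e]
    exact (dvd_add (hA.mul_right _) hB).neg_right
  exact (dvd_iff_dvd_of_dvd_sub h)

lemma disc_congr (p : ℕ) {A A' B B' : ℤ} (hA : (p : ℤ) ∣ A - A') (hB : (p : ℤ) ∣ B - B') :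
    (p : ℤ) ∣ 2 * (4 * A ^ 3 + 27 * B ^ 2) ↔ (p : ℤ) ∣ 2 * (4 * A' ^ 3 + 27 * B' ^ 2) := by
  have h : (p : ℤ) ∣ 2 * (4 * A ^ 3 + 27 * B ^ 2) - 2 * (4 * A' ^ 3 + 27 * B' ^ 2) := by
    have e : 2 * (4 * A ^ 3 + 27 * B ^ 2) - 2 * (4 * A' ^ 3 + 27 * B' ^ 2) =
      (A - A') * (8 * (A ^ 2 + A * A' + A' ^ 2)) + (B - B') * (54 * (B + B')) := by ring
    rw [e]
    exact dvd_add (hA.mul_right _) (hB.mul_right _)
  exact dvd_iff_dvd_of_dvd_sub h

lemma weight_congr {k : ℕ} (w : ℕ → (Fin k → ℤ) → ℝ) (p : ℕ) {A A' B B' : Fin k → ℤ}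
    (hA : ∀ j, (p : ℤ) ∣ A j - A' j) (hB : ∀ j, (p : ℤ) ∣ B j - B' j) : weight w A B p = weight w A' B' p := by
  classical
  unfold weight
  have h1 : (fun j => (p : ℤ) - points p (A j) (B j)) = fun j => (p : ℤ) - points p (A' j) (B' j) := by
    funext j
    rw [points_congr p (hA j) (hB j)]
  have h2 : (∃ j, (p : ℤ) ∣ 2 * (4 * A j ^ 3 + 27 * B j ^ 2)) ↔ ∃ j, (p : ℤ) ∣ 2 * (4 * A' j ^ 3 + 27 * B' j ^ 2) :=
    exists_congr fun j => disc_congr p (hA j) (hB j)
  rw [h1]
  by_cases h3 : ∃ j, (p : ℤ) ∣ 2 * (4 * A j ^ 3 + 27 * B j ^ 2)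
  · rw [if_pos h3, if_pos (h2.1 h3)]
  · rw [if_neg h3, if_neg fun h4 => h3 (h2.2 h4)]

lemma eval_congr {d : ℕ} (p : ℕ) (a : MvPolynomial (Fin d) ℤ) {ν ν' : Fin d → ℤ} (h : ∀ i, (p : ℤ) ∣ ν i - ν' i) :
    (p : ℤ) ∣ MvPolynomial.eval ν a - MvPolynomial.eval ν' a := by
  induction a using MvPolynomial.induction_on with
  | C c => simp
  | add f g hf hg =>
    rw [map_add, map_add, add_sub_add_comm]
    exact dvd_add hf hg
  | mul_X f i hf =>
    rw [map_mul, map_mul, MvPolynomial.eval_X, MvPolynomial.eval_X]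
    have e : MvPolynomial.eval ν f * ν i - MvPolynomial.eval ν' f * ν' i =
      (MvPolynomial.eval ν f - MvPolynomial.eval ν' f) * ν i + (ν i - ν' i) * MvPolynomial.eval ν' f := by ring
    rw [e]
    exact dvd_add (hf.mul_right _) ((h i).mul_right _)

lemma average_eq (d p : ℕ) (f : (Fin d → ℤ) → ℝ) : Q282LT.avg d p f = average d p f := rfl

lemma proportion_eq {d : ℕ} (m : Fin d → ℤ) (L : Fin d → ℕ) (P : (Fin d → ℤ) → Prop) : Q282LT.zprop m L P = proportion m L P := rfl

lemma value_per {k d : ℕ} (w : ℕ → (Fin k → ℤ) → ℝ) (a b : Fin k → MvPolynomial (Fin d) ℤ) (p : ℕ) :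
    Q282LT.ZPer p (value w a b p) := fun _ _ h =>
  weight_congr w p (fun j => eval_congr p (a j) h) fun j => eval_congr p (b j) h

lemma value_abs {k d : ℕ} (w : ℕ → (Fin k → ℤ) → ℝ) (hw : ∀ p t, |w p t| ≤ 1) (a b : Fin k → MvPolynomial (Fin d) ℤ) (p : ℕ)
    (ν : Fin d → ℤ) : |value w a b p ν| ≤ 1 := by
  classical
  unfold value weight
  split_ifs
  · rw [abs_zero]
    exact zero_le_one
  · exact hw _ _

lemma mem_primes {x p : ℕ} (hp : p ∈ primes x) : p.Prime ∧ p ≤ x := by
  unfold primes at hp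
  rw [mem_filter, mem_range] at hp
  exact ⟨hp.2, by omega⟩

lemma card_primes (x : ℕ) : (primes x).card ≤ x := by
  calc (primes x).card ≤ (Icc 1 x).card := by
        refine card_le_card fun p hp => ?_
        rw [mem_Icc]
        exact ⟨(mem_primes hp).1.one_lt.le, (mem_primes hp).2⟩
    _ = x := by rw [Nat.card_Icc, Nat.add_sub_cancel]

/-- Let `T, ε > 0`. There are constants `K > 0`, `v₀, y₀ ≥ 1` and `δ > 0`, depending on `T` and `ε` only, with the following property.
Let `a_j, b_j`, `j = 1, ..., k`, be polynomials in `d ≥ 0` variables over `ℤ`, let `w(p, t)` be real numbers with `|w(p, t)| ≤ 1`, for the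
primes `p` and the vectors `t` of `k` integers, let `x ≥ 2`, and let `S(ν)` be the sum over the primes `p ≤ x` at which the `k` curves
`y² = x³ + a_j(ν) x + b_j(ν)` are smooth of `w(p, t)`, `t` the vector of their traces of Frobenius. Let `M`, `V`, `Ψ` and `m` be the mean,
the variance, the logarithm of the exponential moments and the mean under the tilted law of `S` in the model. Then:

* if `0 < t ≤ T` and `t ^ 2 V ≥ v₀`, then in every box of integer vectors with sides at least `(d + 1) x ^ (K t ^ 2 V)` the proportion of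
  the `ν` with `S(ν) ≥ M + m(t)` lies between `exp (-(1 + ε) J)` and `exp (-(1 - ε) J)`, where `J = t m(t) - Ψ(t)`;
* if `y₀ ≤ y ≤ δ √V`, then in every box of integer vectors with sides at least `(d + 1) x ^ (K y ^ 2)` the proportion of the `ν` with
  `S(ν) ≥ M + y √V` lies between `exp (-(1 + ε) y ^ 2 / 2)` and `exp (-(1 - ε) y ^ 2 / 2)`. -/
theorem result (T ε : ℝ) (hT : 0 < T) (hε : 0 < ε) : ∃ K v₀ y₀ δ : ℝ, 0 < K ∧ 1 ≤ v₀ ∧ 1 ≤ y₀ ∧ 0 < δ ∧
    ∀ (k d : ℕ) (a b : Fin k → MvPolynomial (Fin d) ℤ) (w : ℕ → (Fin k → ℤ) → ℝ), (∀ p t, |w p t| ≤ 1) → ∀ x : ℕ, 2 ≤ x →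
      (∀ t : ℝ, 0 < t → t ≤ T → v₀ ≤ t ^ 2 * modelVariance d x (value w a b) → ∀ (m : Fin d → ℤ) (L : Fin d → ℕ),
        (∀ i, (d + 1) * (x : ℝ) ^ (K * (t ^ 2 * modelVariance d x (value w a b))) ≤ L i) →
        Real.exp (-((1 + ε) * (t * tiltedMean d x (value w a b) t - logMoment d x (value w a b) t))) ≤
          proportion m L (fun ν => modelMean d x (value w a b) + tiltedMean d x (value w a b) t ≤ ∑ p ∈ primes x, value w a b p ν) ∧
        proportion m L (fun ν => modelMean d x (value w a b) + tiltedMean d x (value w a b) t ≤ ∑ p ∈ primes x, value w a b p ν) ≤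
          Real.exp (-((1 - ε) * (t * tiltedMean d x (value w a b) t - logMoment d x (value w a b) t)))) ∧
      (∀ y : ℝ, y₀ ≤ y → y ≤ δ * Real.sqrt (modelVariance d x (value w a b)) → ∀ (m : Fin d → ℤ) (L : Fin d → ℕ),
        (∀ i, (d + 1) * (x : ℝ) ^ (K * y ^ 2) ≤ L i) →
        Real.exp (-((1 + ε) * (y ^ 2 / 2))) ≤
          proportion m L (fun ν => modelMean d x (value w a b) + y * Real.sqrt (modelVariance d x (value w a b)) ≤
            ∑ p ∈ primes x, value w a b p ν) ∧
        proportion m L (fun ν => modelMean d x (value w a b) + y * Real.sqrt (modelVariance d x (value w a b)) ≤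
            ∑ p ∈ primes x, value w a b p ν) ≤ Real.exp (-((1 - ε) * (y ^ 2 / 2)))) := by
  obtain ⟨K₁, v₀, hK₁, hv₀, h1⟩ := Q69CR.cramer_z T ε hT hε
  obtain ⟨K₂, y₀, δ, hK₂, hy₀, hδ, h2⟩ := Q69CR.mdp_z ε hε
  refine ⟨max K₁ K₂, v₀, y₀, δ, lt_of_lt_of_le hK₁ (le_max_left _ _), hv₀, hy₀, hδ, ?_⟩
  intro k d a b w hw x hx
  have hxr : (1 : ℝ) ≤ x := by exact_mod_cast (by omega : 1 ≤ x)
  have hq : ∀ p ∈ primes x, 1 ≤ p := fun p hp => (mem_primes hp).1.one_lt.le
  have hco : ∀ p ∈ primes x, ∀ p' ∈ primes x, p ≠ p' → Nat.Coprime p p' := fun p hp p' hp' hne =>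
    (Nat.coprime_primes (mem_primes hp).1 (mem_primes hp').1).2 hne
  constructor
  · intro t ht0 ht hv m L hL
    have hV0 : 0 ≤ t ^ 2 * modelVariance d x (value w a b) := le_trans (by linarith) hv
    exact h1 d (primes x) (fun p => p) (value w a b) hq hco (fun p _ => value_per w a b p) (fun p _ => value_abs w hw a b p)
      (modelVariance d x (value w a b)) rfl t ht0 ht hv x hx (fun p hp => (mem_primes hp).2) (card_primes x) m L fun i =>
        (mul_le_mul_of_nonneg_left (Real.rpow_le_rpow_of_exponent_le hxr (mul_le_mul_of_nonneg_right (le_max_left _ _) hV0))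
          (by positivity)).trans (hL i)
  · intro y hy hyV m L hL
    exact h2 d (primes x) (fun p => p) (value w a b) hq hco (fun p _ => value_per w a b p) (fun p _ => value_abs w hw a b p)
      (modelVariance d x (value w a b)) rfl y hy hyV x hx (fun p hp => (mem_primes hp).2) (card_primes x) m L fun i =>
        (mul_le_mul_of_nonneg_left (Real.rpow_le_rpow_of_exponent_le hxr (mul_le_mul_of_nonneg_right (le_max_right _ _)
          (sq_nonneg y))) (by positivity)).trans (hL i)

end Pool.Agent.Results.MP_f1937f_nt.CramerTheorem
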