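import Pool.Agent.Q282.LT.Shift

/-!
# Lang–Trotter in families: the numbers of primes with a given Frobenius trace obey the Gaussian law

Let `a, b` be arbitrary polynomials in `d` variables over `ℤ`, and consider the curves
`E_ν : y ^ 2 = x ^ 3 + a(ν) x + b(ν)`, `ν ∈ ℤ ^ d`. Let `w(p, t)` be any weights with `|w(p, t)| ≤ 1`, and let
`N_ν(x)` be the sum of the `w(p, a_p(E_ν))` over the primes `p ≤ x` at which `E_ν` is smooth; for `w(p, t) = 1` if `t = r` and
`w(p, t) = 0` otherwise `N_ν(x)` is the number `P_{E_ν, r}(x)` of Lang and Trotter. The model for `N_ν(x)` is the sum of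
independent variables: for every `p` a random member of the family over `F_p`. Let `M(x)` and `V(x)` be the mean and the variance of
the model, which are computed from the reductions of the family over the fields `F_p`, `p ≤ x`. It is proved that for every
`ε > 0` there are constants such that as soon as `V(x)` exceeds a constant and the sides of a box of parameters exceed a constant
times `x ^ A`, the proportion of the `ν` of the box with `N_ν(x) ≤ M(x) + y sqrt (V(x))` differs from `Φ(y)` by at most `ε`, for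
all `y`. The constants depend on `ε` only; they do not depend on the family, on the weights, on `x`, on `y` and on the position of the box.
So for the fixed trace `r` the number of primes fluctuates around the sum of the probabilities like a normal variable with the
variance `V(x) ≤ M(x)` (`V` of the order `x ^ (1 / 2) / log x` for the family of all curves, by Deuring's formula and the theorems of
Fouvry-Murty and David-Pappalardi). So the square root of the main term is the true order of the error term of the conjecture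
for most of the curves of every family: it lies between `δ sqrt (V(x))` and `sqrt (V(x)) / δ` for a proportion that tends to `1` as
`δ` tends to `0`.

Proof. The moments: let `F_p` be the function `w(p, a_p(E_ν))` minus its mean. The moments of the sum of the `F_p` over all residues
are compared with the moments of the normal law by induction on the set of primes (the recursion for the moments of a sum of
independent variables is satisfied exactly by the normal moments with the terms of order 0, 1, 2); the passage to boxes uses the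
chinese remainder theorem. The law follows from finitely many moments by Esseen's inequality.
-/

set_option autoImplicit false

namespace Pool.Agent.Results.MP_f1937f_nt.GaussianLaw

open Finset

/-- The number of the solutions `(x, y)` of `y² = x³ + A x + B` modulo `p`. -/
def points (p : ℕ) (A B : ℤ) : ℕ :=
  ((range p ×ˢ range p).filter
    (fun xy : ℕ × ℕ => (p : ℤ) ∣ (xy.2 : ℤ) ^ 2 - ((xy.1 : ℤ) ^ 3 + A * xy.1 + B))).card

/-- `w p t` for the trace of Frobenius `t = p + 1 - #E(F_p) = p - points p A B` of the curve `y² = x³ + A x + B` at the prime `p`, if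
the curve is smooth modulo `p`, and `0` if `p ∣ 2 (4 A³ + 27 B²)`. -/
noncomputable def weight (w : ℕ → ℤ → ℝ) (p : ℕ) (A B : ℤ) : ℝ :=
  if (p : ℤ) ∣ 2 * (4 * A ^ 3 + 27 * B ^ 2) then 0 else w p ((p : ℤ) - points p A B)

/-- The sum of the `w p (a_p(E))` over the primes `p ≤ x` at which the curve `E : y² = x³ + A x + B` is smooth. -/
noncomputable def total (w : ℕ → ℤ → ℝ) (x : ℕ) (A B : ℤ) : ℝ := ∑ p ∈ (range (x + 1)).filter Nat.Prime, weight w p A B

/-- The average of `weight w p (a(ν)) (b(ν)) ^ k` over the residues `ν` modulo `p`. -/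
noncomputable def average {d : ℕ} (a b : MvPolynomial (Fin d) ℤ) (w : ℕ → ℤ → ℝ) (k p : ℕ) : ℝ :=
  (∑ ν ∈ Fintype.piFinset fun _ : Fin d => range p,
    weight w p (MvPolynomial.eval (fun i => (ν i : ℤ)) a) (MvPolynomial.eval (fun i => (ν i : ℤ)) b) ^ k) / (p : ℝ) ^ d

/-- The mean of the model. -/
noncomputable def modelMean {d : ℕ} (a b : MvPolynomial (Fin d) ℤ) (w : ℕ → ℤ → ℝ) (x : ℕ) : ℝ :=
  ∑ p ∈ (range (x + 1)).filter Nat.Prime, average a b w 1 p

/-- The variance of the model. -/
noncomputable def modelVariance {d : ℕ} (a b : MvPolynomial (Fin d) ℤ) (w : ℕ → ℤ → ℝ) (x : ℕ) : ℝ :=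
  ∑ p ∈ (range (x + 1)).filter Nat.Prime, (average a b w 2 p - average a b w 1 p ^ 2)

/-- The box of the integer vectors `ν` with `m i ≤ ν i < m i + L i`. -/
noncomputable def box {d : ℕ} (m : Fin d → ℤ) (L : Fin d → ℕ) : Finset (Fin d → ℤ) :=
  Fintype.piFinset fun i => Ico (m i) (m i + L i)

open Classical in
/-- The proportion of the `ν` of the box with the property `P`. -/
noncomputable def proportion {d : ℕ} (m : Fin d → ℤ) (L : Fin d → ℕ) (P : (Fin d → ℤ) → Prop) : ℝ :=
  (((box m L).filter P).card : ℝ) / ∏ i, (L i : ℝ)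

/-- The distribution function of the standard normal law. -/
noncomputable def Phi (y : ℝ) : ℝ := (ProbabilityTheory.gaussianReal 0 1).real (Set.Iic y)

/-! ### Proofs -/

lemma points_congr (p : ℕ) {A A' B B' : ℤ} (hA : (p : ℤ) ∣ A - A') (hB : (p : ℤ) ∣ B - B') :
    points p A B = points p A' B' := by
  unfold points
  congr 1
  apply filter_congr
  intro xy _
  have h : (p : ℤ) ∣ ((xy.2 : ℤ) ^ 2 - ((xy.1 : ℤ) ^ 3 + A * xy.1 + B)) -
      ((xy.2 : ℤ) ^ 2 - ((xy.1 : ℤ) ^ 3 + A' * xy.1 + B')) := by
    have e : ((xy.2 : ℤ) ^ 2 - ((xy.1 : ℤ) ^ 3 + A * xy.1 + B)) -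
      ((xy.2 : ℤ) ^ 2 - ((xy.1 : ℤ) ^ 3 + A' * xy.1 + B')) = -((A - A') * xy.1 + (B - B')) := by ring
    rw [e]
    exact (dvd_add (hA.mul_right _) hB).neg_right
  exact (dvd_iff_dvd_of_dvd_sub h)

lemma weight_congr (w : ℕ → ℤ → ℝ) (p : ℕ) {A A' B B' : ℤ} (hA : (p : ℤ) ∣ A - A') (hB : (p : ℤ) ∣ B - B') :
    weight w p A B = weight w p A' B' := by
  unfold weight
  have h : (p : ℤ) ∣ 2 * (4 * A ^ 3 + 27 * B ^ 2) - 2 * (4 * A' ^ 3 + 27 * B' ^ 2) := by
    have e : 2 * (4 * A ^ 3 + 27 * B ^ 2) - 2 * (4 * A' ^ 3 + 27 * B' ^ 2) =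
      (A - A') * (8 * (A ^ 2 + A * A' + A' ^ 2)) + (B - B') * (54 * (B + B')) := by ring
    rw [e]
    exact dvd_add (hA.mul_right _) (hB.mul_right _)
  rw [points_congr p hA hB]
  by_cases h1 : (p : ℤ) ∣ 2 * (4 * A ^ 3 + 27 * B ^ 2)
  · rw [if_pos h1, if_pos ((dvd_iff_dvd_of_dvd_sub h).1 h1)]
  · rw [if_neg h1, if_neg (fun h2 => h1 ((dvd_iff_dvd_of_dvd_sub h).2 h2))]

lemma eval_congr {d : ℕ} (p : ℕ) (a : MvPolynomial (Fin d) ℤ) {ν ν' : Fin d → ℤ} (h : ∀ i, (p : ℤ) ∣ ν i - ν' i) :
    (p : ℤ) ∣ MvPolynomial.eval ν a - MvPolynomial.eval ν' a := by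
  induction a using MvPolynomial.induction_on with
  | C c => simp
  | add f g hf hg =>
    rw [map_add, map_add, add_sub_add_comm]
    exact dvd_add hf hg
  | mul_X f i hf =>
    rw [map_mul, map_mul, MvPolynomial.eval_X, MvPolynomial.eval_X]
    have e : MvPolynomial.eval ν f * ν i - MvPolynomial.eval ν' f * ν' i =
      (MvPolynomial.eval ν f - MvPolynomial.eval ν' f) * ν i + (ν i - ν' i) * MvPolynomial.eval ν' f := by ring
    rw [e]
    exact dvd_add (hf.mul_right _) ((h i).mul_right _)

lemma weight_abs (w : ℕ → ℤ → ℝ) (hw : ∀ p t, |w p t| ≤ 1) (p : ℕ) (A B : ℤ) : |weight w p A B| ≤ 1 := by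
  unfold weight
  split_ifs
  · rw [abs_zero]
    exact zero_le_one
  · exact hw _ _

/-- For every `ε > 0` there are positive `V₀`, `C₀` and an integer `K` with the following property. Let `a, b` be polynomials in
`d ≥ 0` variables over `ℤ`, let `|w p t| ≤ 1`, and let the variance `V` of the model for the primes `p ≤ x` be at least `V₀`. Let a
box of integer vectors be given all sides of which are at least `C₀ (d + 1) x ^ K`. Then for all real `y` the proportion of the `ν` of
the box for which the sum of the `w p (a_p(E_ν))` over the primes `p ≤ x` of good reduction of (the model of)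
`E_ν : y² = x³ + a(ν) x + b(ν)` is at most `M + y sqrt V`, where `M` is the mean of the model, differs by at most `ε` from
`Φ(y)`. -/
theorem result (ε : ℝ) (hε : 0 < ε) : ∃ (V₀ C₀ : ℝ) (K : ℕ), 0 < V₀ ∧ 0 < C₀ ∧
    ∀ (d : ℕ) (a b : MvPolynomial (Fin d) ℤ) (w : ℕ → ℤ → ℝ), (∀ p t, |w p t| ≤ 1) →
      ∀ x : ℕ, V₀ ≤ modelVariance a b w x → ∀ (m : Fin d → ℤ) (L : Fin d → ℕ), (∀ i, C₀ * (d + 1) * (x : ℝ) ^ K ≤ L i) →
        ∀ y : ℝ, |proportion m L (fun ν => total w x (MvPolynomial.eval ν a) (MvPolynomial.eval ν b) ≤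
          modelMean a b w x + y * Real.sqrt (modelVariance a b w x)) - Phi y| ≤ ε := by
  classical
  obtain ⟨V₀, C₀, K, hV₀, hC₀, h⟩ := Q282LT.gauss_z ε hε
  refine ⟨V₀, C₀, K, hV₀, hC₀, ?_⟩
  intro d a b w hw x hV m L hL y
  obtain ⟨f, hf⟩ : ∃ f : ℕ → (Fin d → ℤ) → ℝ, f = fun p ν => weight w p (MvPolynomial.eval ν a) (MvPolynomial.eval ν b) := ⟨_, rfl⟩
  have h1 : ∀ p, Q282LT.avg d p (f p) = average a b w 1 p := by
    intro p
    rw [hf]
    unfold Q282LT.avg average
    simp only [pow_one]
  have h2 : ∀ p, Q282LT.avg d p (fun ν => f p ν ^ 2) = average a b w 2 p := by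
    intro p
    rw [hf]
    rfl
  have hI : ∀ p ∈ (range (x + 1)).filter Nat.Prime, p.Prime ∧ p ≤ x := by
    intro p hp
    rw [mem_filter, mem_range] at hp
    exact ⟨hp.2, by omega⟩
  have h3 := h d ((range (x + 1)).filter Nat.Prime) (fun p => p) f (fun p hp => (hI p hp).1.one_lt.le)
    (fun p hp p' hp' hne => (Nat.coprime_primes (hI p hp).1 (hI p' hp').1).2 hne)
    (fun p _ ν ν' hνν => by
      rw [hf]
      exact weight_congr w p (eval_congr p a hνν) (eval_congr p b hνν))
    (fun p _ ν => by
      rw [hf]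
      exact weight_abs w hw p _ _)
    (by
      refine hV.trans (le_of_eq ?_)
      unfold modelVariance
      refine sum_congr rfl fun p _ => ?_
      rw [h1, h2])
    x (fun p hp => (hI p hp).2)
    (by
      calc ((range (x + 1)).filter Nat.Prime).card ≤ (Icc 1 x).card := by
            refine card_le_card fun p hp => ?_
            rw [mem_Icc]
            exact ⟨(hI p hp).1.one_lt.le, (hI p hp).2⟩
        _ = x := by rw [Nat.card_Icc, Nat.add_sub_cancel])
    m L hL y
  simp only [h1, h2] at h3
  unfold proportion Phi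
  have h4 : ((box m L).filter fun ν => total w x (MvPolynomial.eval ν a) (MvPolynomial.eval ν b) ≤
      modelMean a b w x + y * Real.sqrt (modelVariance a b w x)) =
      (Q282LT.zbox m L).filter fun ν => ∑ p ∈ (range (x + 1)).filter Nat.Prime, f p ν ≤
        ∑ p ∈ (range (x + 1)).filter Nat.Prime, average a b w 1 p +
        y * Real.sqrt (∑ p ∈ (range (x + 1)).filter Nat.Prime, (average a b w 2 p - average a b w 1 p ^ 2)) := by
    unfold box Q282LT.zbox total modelMean modelVariance
    rw [hf]
  have h5 : ((((box m L).filter fun ν => total w x (MvPolynomial.eval ν a) (MvPolynomial.eval ν b) ≤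
      modelMean a b w x + y * Real.sqrt (modelVariance a b w x)).card : ℕ) : ℝ) =
      ((((Q282LT.zbox m L).filter fun ν => ∑ p ∈ (range (x + 1)).filter Nat.Prime, f p ν ≤
        ∑ p ∈ (range (x + 1)).filter Nat.Prime, average a b w 1 p +
        y * Real.sqrt (∑ p ∈ (range (x + 1)).filter Nat.Prime, (average a b w 2 p - average a b w 1 p ^ 2))).card : ℕ) : ℝ) := by
    rw [h4]
  rw [← h5] at h3
  exact h3

end Pool.Agent.Results.MP_f1937f_nt.GaussianLaw
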