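import Pool.Agent.Q69.LT.ZExp

/-!
# Lang–Trotter in families: the set of the primes with given Frobenius traces is an independent random set

Let `a_j, b_j`, `j = 1, ..., k`, be arbitrary polynomials in `d` variables over `ℤ`, and consider the `k` curves
`E_j(ν) : y ^ 2 = x ^ 3 + a_j(ν) x + b_j(ν)`, `ν ∈ ℤ ^ d`. At every prime `p ≤ x` at which all curves are smooth the vector of the `k`
Frobenius traces gets a label in a finite set or no label, by an arbitrary rule `c p`. For instance (one curve, one label) the primes
`p` with `a_p(E) = r`, counted by Lang and Trotter; for two curves the primes with `a_p(E_1) = a_p(E_2)`, or those with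
`a_p(E_1) = r_1`, `a_p(E_2) = r_2`. Let `Λ` be (an upper bound of) the expected number of the labelled primes `p ≤ x` in the model,
the sum over `p ≤ x` of the proportion of the `ν` modulo `p` with a label. For a fixed trace of one curve `Λ` is of the order
`x ^ (1 / 2) / log x`, for fixed traces of two independent curves of the order `log log x`.

It is proved that over every box of parameters `ν` with sides at least `(d + 1) x ^ (K (Λ + 1))` the joint law of all labels at the
primes up to `x` (which primes have a label, and which one) has the distance at most `exp (- A (Λ + 1))`, summed over all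
configurations, from the product of the local laws, that is, from independent choices at all primes. Here `A` is arbitrary, and `K`
depends on `A` only, not on the curves, the rule, the number of the labels, `x` and the position of the box. (All residues modulo the
primes up to `x` are independent only for sides of the size `e ^ x`; here the logarithm of the sides is `Λ log x`, about the square
root of `x` for one fixed trace, and `log x log log x` for two curves with fixed traces.) Hence every statement on independent events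
of probability `P_p`, `p ≤ x`, holds for the primes with the given traces in these families up to an error `exp (- A (Λ + 1))`: the
laws of the numbers of these primes and of their gaps, Poisson and Gaussian laws, local limit theorems, large deviations.

Proof. Functions of configurations are expanded by Moebius inversion over subsets; the expansion is truncated at a level
proportional to `Λ + 1` with an explicit error, and the terms are periodic with periods at most `x` to this level.
-/

set_option autoImplicit false

namespace Pool.Agent.Results.MP_f1937f_nt.JointLawOfLabels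

open Finset

/-- The number of the solutions `(x, y)` of `y² = x³ + A x + B` modulo `p`. -/
def points (p : ℕ) (A B : ℤ) : ℕ :=
  ((range p ×ˢ range p).filter
    (fun xy : ℕ × ℕ => (p : ℤ) ∣ (xy.2 : ℤ) ^ 2 - ((xy.1 : ℤ) ^ 3 + A * xy.1 + B))).card

open Classical in
/-- The label at the prime `p` of the curves `y² = x³ + A j x + B j`: it is the label `c p t` of the vector `t` of their traces of
Frobenius `t j = p + 1 - #E_j(F_p) = p - points p (A j) (B j)`, if all curves are smooth modulo `p`; there is no label if `p` divides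
`2 (4 (A j)³ + 27 (B j)²)` for some `j`. -/
noncomputable def label {s k : ℕ} (c : ℕ → (Fin k → ℤ) → Option (Fin s)) (A B : Fin k → ℤ) (p : ℕ) : Option (Fin s) :=
  if ∃ j, (p : ℤ) ∣ 2 * (4 * A j ^ 3 + 27 * B j ^ 2) then none else c p fun j => (p : ℤ) - points p (A j) (B j)

/-- The primes up to `x`. -/
def primes (x : ℕ) : Finset ℕ := (range (x + 1)).filter Nat.Prime

/-- The box of the integer vectors `ν` with `m i ≤ ν i < m i + L i`. -/
noncomputable def box {d : ℕ} (m : Fin d → ℤ) (L : Fin d → ℕ) : Finset (Fin d → ℤ) :=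
  Fintype.piFinset fun i => Ico (m i) (m i + L i)

open Classical in
/-- The proportion of the `ν` of the box with the property `P`. -/
noncomputable def proportion {d : ℕ} (m : Fin d → ℤ) (L : Fin d → ℕ) (P : (Fin d → ℤ) → Prop) : ℝ :=
  (((box m L).filter P).card : ℝ) / ∏ i, (L i : ℝ)

open Classical in
/-- The proportion of the residues `ν` modulo `q` with the property `P`. -/
noncomputable def residues (d q : ℕ) (P : (Fin d → ℤ) → Prop) : ℝ :=
  (((Fintype.piFinset fun _ : Fin d => range q).filter fun ν => P fun i => (ν i : ℤ)).card : ℝ) / (q : ℝ) ^ d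

/-! ### Proofs -/

lemma points_congr (p : ℕ) {A A' B B' : ℤ} (hA : (p : ℤ) ∣ A - A') (hB : (p : ℤ) ∣ B - B') :
    points p A B = points p A' B' := by
  unfold points
  congr 1
  apply filter_congr
  intro xy _
  have h : (p : ℤ) ∣ ((xy.2 : ℤ) ^ 2 - ((xy.1 : ℤ) ^ 3 + A * xy.1 + B)) -
      ((xy.2 : ℤ) ^ 2 - ((xy.1 : ℤ) ^ 3 + A' * xy.1 + B')) := by
    have e : ((xy.2 : ℤ) ^ 2 - ((xy.1 : ℤ) ^ 3 + A * xy.1 + B)) -
      ((xy.2 : ℤ) ^ 2 - ((xy.1 : ℤ) ^ 3 + A' * xy.1 + B')) = -((A - A') * xy.1 + (B - B')) := by ring
    rw [e]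
    exact (dvd_add (hA.mul_right _) hB).neg_right
  exact (dvd_iff_dvd_of_dvd_sub h)

lemma disc_congr (p : ℕ) {A A' B B' : ℤ} (hA : (p : ℤ) ∣ A - A') (hB : (p : ℤ) ∣ B - B') :
    (p : ℤ) ∣ 2 * (4 * A ^ 3 + 27 * B ^ 2) ↔ (p : ℤ) ∣ 2 * (4 * A' ^ 3 + 27 * B' ^ 2) := by
  have h : (p : ℤ) ∣ 2 * (4 * A ^ 3 + 27 * B ^ 2) - 2 * (4 * A' ^ 3 + 27 * B' ^ 2) := by
    have e : 2 * (4 * A ^ 3 + 27 * B ^ 2) - 2 * (4 * A' ^ 3 + 27 * B' ^ 2) =
      (A - A') * (8 * (A ^ 2 + A * A' + A' ^ 2)) + (B - B') * (54 * (B + B')) := by ring
    rw [e]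
    exact dvd_add (hA.mul_right _) (hB.mul_right _)
  exact dvd_iff_dvd_of_dvd_sub h

lemma label_congr {s k : ℕ} (c : ℕ → (Fin k → ℤ) → Option (Fin s)) (p : ℕ) {A A' B B' : Fin k → ℤ}
    (hA : ∀ j, (p : ℤ) ∣ A j - A' j) (hB : ∀ j, (p : ℤ) ∣ B j - B' j) : label c A B p = label c A' B' p := by
  classical
  unfold label
  have h1 : (fun j => (p : ℤ) - points p (A j) (B j)) = fun j => (p : ℤ) - points p (A' j) (B' j) := by
    funext j
    rw [points_congr p (hA j) (hB j)]
  have h2 : (∃ j, (p : ℤ) ∣ 2 * (4 * A j ^ 3 + 27 * B j ^ 2)) ↔ ∃ j, (p : ℤ) ∣ 2 * (4 * A' j ^ 3 + 27 * B' j ^ 2) :=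
    exists_congr fun j => disc_congr p (hA j) (hB j)
  rw [h1]
  by_cases h3 : ∃ j, (p : ℤ) ∣ 2 * (4 * A j ^ 3 + 27 * B j ^ 2)
  · rw [if_pos h3, if_pos (h2.1 h3)]
  · rw [if_neg h3, if_neg fun h4 => h3 (h2.2 h4)]

lemma eval_congr {d : ℕ} (p : ℕ) (a : MvPolynomial (Fin d) ℤ) {ν ν' : Fin d → ℤ} (h : ∀ i, (p : ℤ) ∣ ν i - ν' i) :
    (p : ℤ) ∣ MvPolynomial.eval ν a - MvPolynomial.eval ν' a := by
  induction a using MvPolynomial.induction_on with
  | C c => simp
  | add f g hf hg =>
    rw [map_add, map_add, add_sub_add_comm]
    exact dvd_add hf hg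
  | mul_X f i hf =>
    rw [map_mul, map_mul, MvPolynomial.eval_X, MvPolynomial.eval_X]
    have e : MvPolynomial.eval ν f * ν i - MvPolynomial.eval ν' f * ν' i =
      (MvPolynomial.eval ν f - MvPolynomial.eval ν' f) * ν i + (ν i - ν' i) * MvPolynomial.eval ν' f := by ring
    rw [e]
    exact dvd_add (hf.mul_right _) ((h i).mul_right _)

lemma residues_eq (d q : ℕ) (P : (Fin d → ℤ) → Prop) : Q282LT.rprop d q P = residues d q P := by
  classical
  unfold Q282LT.rprop Q282LT.avg residues
  rw [card_filter]
  push_cast
  congr 1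

lemma proportion_eq {d : ℕ} (m : Fin d → ℤ) (L : Fin d → ℕ) (P : (Fin d → ℤ) → Prop) : Q282LT.zprop m L P = proportion m L P := rfl

/-- Let `A > 0`. There is a `K > 0` with the following property. Let `a_j, b_j`, `j = 1, ..., k`, be polynomials in `d ≥ 0` variables
over `ℤ`, let `c` be a rule which gives at every prime `p` some of the vectors of `k` traces one of the labels `1, ..., s`, let
`x ≥ 2` and `Λ ≥ 0`, and suppose that the sum over the primes `p ≤ x` of the proportion of the `ν` modulo `p` for which the curves
`E_j(ν) : y² = x³ + a_j(ν) x + b_j(ν)` have a label at `p` is at most `Λ`. Let a box of integer vectors be given all sides of which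
are at least `(d + 1) x ^ (K (Λ + 1))`. For every configuration `σ` (a label or no label at every prime `p ≤ x`) let `P(σ)` be the
proportion of the `ν` of the box for which the labels at the primes up to `x` are those of `σ`, and let `Q(σ)` be the product over the
primes `p ≤ x` of the proportion of the `ν` modulo `p` for which the label at `p` is `σ p`. Then the sum of the `|P(σ) - Q(σ)|` over
all configurations is at most `exp (- A (Λ + 1))`. -/
theorem result (A : ℝ) (hA : 0 < A) : ∃ K : ℝ, 0 < K ∧
    ∀ (s k d : ℕ) (a b : Fin k → MvPolynomial (Fin d) ℤ) (c : ℕ → (Fin k → ℤ) → Option (Fin s)) (x : ℕ) (Λ : ℝ), 2 ≤ x → 0 ≤ Λ →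
      ∑ p ∈ primes x, residues d p
        (fun ν => label c (fun j => MvPolynomial.eval ν (a j)) (fun j => MvPolynomial.eval ν (b j)) p ≠ none) ≤ Λ →
      ∀ (m : Fin d → ℤ) (L : Fin d → ℕ), (∀ i, (d + 1) * (x : ℝ) ^ (K * (Λ + 1)) ≤ L i) →
      ∑ σ : primes x → Option (Fin s),
        |proportion m L (fun ν => ∀ p : primes x,
            label c (fun j => MvPolynomial.eval ν (a j)) (fun j => MvPolynomial.eval ν (b j)) p = σ p) -
          ∏ p : primes x, residues d p
            (fun ν => label c (fun j => MvPolynomial.eval ν (a j)) (fun j => MvPolynomial.eval ν (b j)) p = σ p)| ≤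
        Real.exp (-(A * (Λ + 1))) := by
  classical
  obtain ⟨K, hK, h⟩ := Q69LT.exp_z A hA
  refine ⟨K, hK, ?_⟩
  intro s k d a b c x Λ hx hΛ hlam m L hL
  have hI : ∀ p ∈ primes x, p.Prime ∧ p ≤ x := by
    intro p hp
    unfold primes at hp
    rw [mem_filter, mem_range] at hp
    exact ⟨hp.2, by omega⟩
  have h3 := h (Fin s) Λ hΛ d (primes x) (fun p => p)
    (fun p ν => label c (fun j => MvPolynomial.eval ν (a j)) (fun j => MvPolynomial.eval ν (b j)) p)
    (fun p hp => (hI p hp).1.one_lt.le)
    (fun p hp p' hp' hne => (Nat.coprime_primes (hI p hp).1 (hI p' hp').1).2 hne)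
    (fun p _ ν ν' hνν => label_congr c p (fun j => eval_congr p (a j) hνν) fun j => eval_congr p (b j) hνν)
    (by
      simp only [residues_eq]
      exact hlam)
    x hx (fun p hp => (hI p hp).2)
    (by
      calc (primes x).card ≤ (Icc 1 x).card := by
            refine card_le_card fun p hp => ?_
            rw [mem_Icc]
            exact ⟨(hI p hp).1.one_lt.le, (hI p hp).2⟩
        _ = x := by rw [Nat.card_Icc, Nat.add_sub_cancel])
    m L hL
  simp only [residues_eq, proportion_eq] at h3
  exact h3

end Pool.Agent.Results.MP_f1937f_nt.JointLawOfLabels
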