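import Pool.Agent.Q152.TW.StrW
import Pool.Agent.Q152.TW.Tr

/-!
# The signs of the Frobenius traces over almost all quadratic twists
-/

set_option autoImplicit false

namespace Pool.Agent.Results.MP_f1937f_nt.SignsOverTwists

open Finset

/-- the number of the affine points modulo `p` of `y^2 = x^3 + A x + B` -/
noncomputable def points (p : ℕ) (A B : ℤ) : ℕ :=
  Nat.card {z : ZMod p × ZMod p // z.2 ^ 2 = z.1 ^ 3 + A * z.1 + B}

/-- the trace of Frobenius at `p` -/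
noncomputable def trace (p : ℕ) (A B : ℤ) : ℤ := p - points p A B

/-- `p` is a prime congruent to `c` modulo `q`, it does not divide `2 (4 a_j^3 + 27 b_j^2)`, and the vector of the
traces at `p` of the curves `y^2 = x^3 + a_j x + b_j` is `r` or `-r` -/
def Pm {s : ℕ} (a b r : Fin s → ℤ) (q c p : ℕ) : Prop :=
  p.Prime ∧ p ≡ c [MOD q] ∧ (∀ j, ¬ (p : ℤ) ∣ 2 * (4 * a j ^ 3 + 27 * b j ^ 2)) ∧
    ((∀ j, trace p (a j) (b j) = r j) ∨ ∀ j, trace p (a j) (b j) = -r j)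

noncomputable instance {s : ℕ} (a b r : Fin s → ℤ) (q c : ℕ) : DecidablePred (Pm a b r q c) :=
  Classical.decPred _

/-- the `i`-th of these primes (numbered from `0` in increasing order) -/
noncomputable def pr {s : ℕ} (a b r : Fin s → ℤ) (q c i : ℕ) : ℕ := Nat.nth (Pm a b r q c) i

open Classical in
/-- the law of the strings of signs of the traces of the twists by `m` up to `X`, for all curves, vectors of traces,
classes, windows and signs -/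
def Law (s k : ℕ) (C X δ : ℝ) (m : ℕ) : Prop :=
  ∀ a b r : Fin s → ℤ, (∀ j, |(a j : ℝ)| ≤ X ∧ |(b j : ℝ)| ≤ X ∧ |(r j : ℝ)| ≤ X) → r ≠ 0 →
    ∀ q c i₀ i₁ : ℕ, 1 ≤ q → (q : ℝ) ≤ X → i₀ ≤ i₁ → i₁ + k ≤ Nat.count (Pm a b r q c) (⌊X⌋₊ + 1) + 1 →
    ∀ e : Fin k → ℤ, (∀ u, e u = 1 ∨ e u = -1) →
      |(((Ico i₀ i₁).filter fun i => ∀ (u : Fin k) (j : Fin s),
          trace (pr a b r q c (i + u)) (a j * m ^ 2) (b j * m ^ 3) = e u * r j).card : ℝ) -
        (((Ico i₀ i₁).filter fun i => ∀ u : Fin k, (pr a b r q c (i + u)).Coprime m).card : ℝ) / 2 ^ k| ≤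
      C * √(X ^ δ * ((i₁ : ℝ) - i₀) / δ ^ k)

open Pool.Agent.Q152.QH Pool.Agent.Q152.TW

lemma trace_eq' (p : ℕ) (A B : ℤ) : trace p A B = Pool.Agent.Q152.TW.trace p A B := rfl

lemma lt_card {p : ℕ → Prop} [DecidablePred p] {k n : ℕ} (h : k < Nat.count p n)
    (hf : (Set.ofPred p).Finite) : k < hf.toFinset.card := by
  refine h.trans_le ?_
  rw [Nat.count_eq_card_filter_range]
  refine card_le_card fun x hx => ?_
  rw [Set.Finite.mem_toFinset]
  exact (mem_filter.1 hx).2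

/-- the place `u` of the string number `i` -/
noncomputable def pl {s k : ℕ} (a b r : Fin s → ℤ) (q c i : ℕ) (u : Fin k) : ℕ := pr a b r q c (i + u)

open Classical in
/-- the sign of the vector of the traces, times the sign in the reciprocity law -/
noncomputable def sg {s k : ℕ} (a b r : Fin s → ℤ) (q c ε i : ℕ) (u : Fin k) : ℤ :=
  (-1) ^ (pl a b r q c i u / 2 * ε) *
    if ∀ j, trace (pl a b r q c i u) (a j) (b j) = r j then 1 else -1

lemma sg_sign {s k : ℕ} (a b r : Fin s → ℤ) (q c ε i : ℕ) (u : Fin k) :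
    sg a b r q c ε i u = 1 ∨ sg a b r q c ε i u = -1 := by
  unfold sg
  rcases neg_one_pow_eq_or ℤ (pl a b r q c i u / 2 * ε) with h | h <;> rw [h] <;> split_ifs <;> norm_num

/-- the event at the scale `N` with the parameter `κ` -/
def Good (s k E κ N m : ℕ) : Prop :=
  ∀ a b r : Fin s → ℤ, (∀ j, |a j| ≤ N ∧ |b j| ≤ N ∧ |r j| ≤ N) →
    ∀ q c i₀ i₁ ε : ℕ, 1 ≤ q → q ≤ N → c < q → i₀ ≤ i₁ → i₁ + k ≤ Nat.count (Pm a b r q c) (N + 1) + 1 →
    ε ≤ 1 → ∀ W : Finset (Fin k), W.Nonempty →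
      (∑ i ∈ Ico i₀ i₁, ((∏ u ∈ W, sg a b r q c ε i u : ℤ) : ℝ) *
        (jacobiSym (Mx (pl a b r q c) univ W i : ℤ) m : ℝ)) ^ 2 ≤
        (N : ℝ) ^ ((E : ℝ) / κ) * (4 * ((2 * (κ : ℝ)) ^ k * (k : ℝ)) * ((i₁ : ℝ) - i₀))

lemma pl_facts {s k : ℕ} (a b r : Fin s → ℤ) (q c i₀ i₁ N : ℕ)
    (hc : i₁ + k ≤ Nat.count (Pm a b r q c) (N + 1) + 1) {i : ℕ} (hi : i ∈ Ico i₀ i₁) (u : Fin k) :
    Pm a b r q c (pl a b r q c i u) ∧ pl a b r q c i u ≤ N := by
  have h1 := mem_Ico.1 hi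
  have h2 := u.2
  have h3 : i + (u : ℕ) < Nat.count (Pm a b r q c) (N + 1) := by omega
  refine ⟨Nat.nth_mem _ (fun hf => lt_card h3 hf), ?_⟩
  have h4 := Nat.nth_lt_of_lt_count h3
  unfold pl pr
  omega

lemma pl_inj {s k : ℕ} (a b r : Fin s → ℤ) (q c i₀ i₁ N : ℕ)
    (hc : i₁ + k ≤ Nat.count (Pm a b r q c) (N + 1) + 1) {x y : ℕ} (hx : x ∈ Ico i₀ i₁) (hy : y ∈ Ico i₀ i₁)
    (u v : Fin k) (h : pl a b r q c x u = pl a b r q c y v) : x + (u : ℕ) = y + v := by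
  have hx' := mem_Ico.1 hx
  have hy' := mem_Ico.1 hy
  have hu := u.2
  have hv := v.2
  have h1 : x + (u : ℕ) < Nat.count (Pm a b r q c) (N + 1) := by omega
  have h2 : y + (v : ℕ) < Nat.count (Pm a b r q c) (N + 1) := by omega
  unfold pl pr at h
  rcases Nat.lt_trichotomy (x + (u : ℕ)) (y + v) with h3 | h3 | h3
  · have := Nat.nth_lt_nth' h3 (fun hf => lt_card h2 hf)
    omega
  · exact h3
  · have := Nat.nth_lt_nth' h3 (fun hf => lt_card h1 hf)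
    omega

open Classical in
/-- one choice of the parameters -/
theorem one_par (s k κ N P : ℕ) (hκ : 1 ≤ κ) (hN : 2 ≤ N) (hP : 4 * N ^ ((4 * k + 1) * κ) ≤ P)
    (L : ℝ) (hL : 0 < L) (a b r : Fin s → ℤ) (q c i₀ i₁ ε : ℕ) (hi : i₀ ≤ i₁)
    (hc : i₁ + k ≤ Nat.count (Pm a b r q c) (N + 1) + 1) (W : Finset (Fin k)) (hW : W.Nonempty) :
    (((om P).filter fun m => L * (4 * ((2 * (κ : ℝ)) ^ k * (k : ℝ)) * ((i₁ : ℝ) - i₀)) <
      (∑ i ∈ Ico i₀ i₁, ((∏ u ∈ W, sg a b r q c ε i u : ℤ) : ℝ) *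
        (jacobiSym (Mx (pl a b r q c) univ W i : ℤ) m : ℝ)) ^ 2).card : ℝ) ≤ P / L ^ κ := by
  obtain ⟨w, hw⟩ := hW
  have hk1 : 1 ≤ k := by
    have := w.2
    omega
  rcases hi.eq_or_lt with heq | hlt
  · subst heq
    rw [Ico_self]
    simp only [sum_empty, sub_self, mul_zero]
    rw [filter_eq_empty_iff.2 (fun x _ => by norm_num), card_empty, Nat.cast_zero]
    positivity
  have hcN : Nat.count (Pm a b r q c) (N + 1) ≤ N := by
    rw [Nat.count_eq_card_filter_range]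
    refine (card_le_card (t := (range (N + 1)).erase 0) fun x hx => ?_).trans ?_
    · rw [mem_filter] at hx
      rw [mem_erase]
      refine ⟨?_, hx.1⟩
      rintro rfl
      exact Nat.not_prime_zero hx.2.1
    · rw [card_erase_of_mem (mem_range.2 (by omega)), card_range]
      omega
  have h := exc_strw κ hκ (Ico i₀ i₁) univ W (subset_univ _) ⟨w, hw⟩ (pl a b r q c) (sg a b r q c ε)
    (sg_sign a b r q c ε) (fun i hi' u _ => (pl_facts a b r q c i₀ i₁ N hc hi' u).1.1)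
    (fun i hi' x _ y _ hxy => by
      have := pl_inj a b r q c i₀ i₁ N hc hi' hi' x y hxy
      exact Fin.ext (by omega))
    (fun u _ x hx y hy hxy => by
      have := pl_inj a b r q c i₀ i₁ N hc (mem_coe.1 hx) (mem_coe.1 hy) u u hxy
      omega) N k N (by omega) (fun i hi' u _ => (pl_facts a b r q c i₀ i₁ N hc hi' u).2)
    (by rw [card_univ, Fintype.card_fin]) (by rw [Nat.card_Ico]; omega) ((i₁ : ℝ) - i₀)
    (by rw [Nat.card_Ico, Nat.cast_sub hi]) P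
    (by
      refine le_trans (le_of_eq ?_) hP
      rw [← pow_mul, mul_assoc, ← pow_add]
      congr 2
      ring) L hL
  rwa [card_univ, Fintype.card_fin] at h

open Classical in
/-- one scale -/
theorem one_scale (s k B : ℕ) : ∃ E N₀ : ℕ, ∀ (P N κ : ℕ), N₀ ≤ N → 1 ≤ κ →
    4 * N ^ ((4 * k + 1) * κ) ≤ P →
    (((om P).filter fun m => ¬ Good s k E κ N m).card : ℝ) ≤ P / (N : ℝ) ^ B := by
  refine ⟨B + (3 * s + 5), max 2 (3 ^ (3 * s) * 2 ^ (k + 5)), fun P N κ hN hκ hP => ?_⟩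
  have hN2 : 2 ≤ N := (le_max_left _ _).trans hN
  have hNC : 3 ^ (3 * s) * 2 ^ (k + 5) ≤ N := (le_max_right _ _).trans hN
  have hN0 : (0 : ℝ) < N := by
    have : 0 < N := by omega
    exact_mod_cast this
  have hκR : (1 : ℝ) ≤ κ := by exact_mod_cast hκ
  have hP0 : (0 : ℝ) ≤ P := Nat.cast_nonneg _
  set E : ℕ := B + (3 * s + 5) with hE
  set L : ℝ := (N : ℝ) ^ ((E : ℝ) / κ) with hL
  have hL0 : 0 < L := Real.rpow_pos_of_pos hN0 _
  have hLk : L ^ κ = (N : ℝ) ^ E := by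
    rw [hL, ← Real.rpow_natCast, ← Real.rpow_mul hN0.le, div_mul_cancel₀ _ (by positivity), Real.rpow_natCast]
  set box : Finset (Fin s → ℤ) := Fintype.piFinset fun _ => Icc (-(N : ℤ)) N with hbox
  set T : Finset (((Fin s → ℤ) × (Fin s → ℤ) × (Fin s → ℤ)) × (ℕ × ℕ × ℕ × ℕ × ℕ) × Finset (Fin k)) :=
    (box ×ˢ box ×ˢ box) ×ˢ
      (range (N + 1) ×ˢ range (N + 1) ×ˢ range (N + 2) ×ˢ range (N + 2) ×ˢ range 2) ×ˢ univ with hT
  set bad : ((Fin s → ℤ) × (Fin s → ℤ) × (Fin s → ℤ)) × (ℕ × ℕ × ℕ × ℕ × ℕ) × Finset (Fin k) → Finset ℕ :=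
    fun t => (om P).filter fun m => (t.2.1.2.2.1 ≤ t.2.1.2.2.2.1 ∧
      t.2.1.2.2.2.1 + k ≤ Nat.count (Pm t.1.1 t.1.2.1 t.1.2.2 t.2.1.1 t.2.1.2.1) (N + 1) + 1 ∧ t.2.2.Nonempty) ∧
      L * (4 * ((2 * (κ : ℝ)) ^ k * (k : ℝ)) * ((t.2.1.2.2.2.1 : ℝ) - t.2.1.2.2.1)) <
      (∑ i ∈ Ico t.2.1.2.2.1 t.2.1.2.2.2.1,
        ((∏ u ∈ t.2.2, sg t.1.1 t.1.2.1 t.1.2.2 t.2.1.1 t.2.1.2.1 t.2.1.2.2.2.2 i u : ℤ) : ℝ) *
        (jacobiSym (Mx (pl t.1.1 t.1.2.1 t.1.2.2 t.2.1.1 t.2.1.2.1) univ t.2.2 i : ℤ) m : ℝ)) ^ 2 with hbad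
  have hsub : ((om P).filter fun m => ¬ Good s k E κ N m) ⊆ T.biUnion bad := by
    intro m hm
    rw [mem_filter] at hm
    unfold Good at hm
    push Not at hm
    obtain ⟨hm1, a, b, r, hab, q, c, i₀, i₁, ε, hq1, hqN, hcq, hi, hc, hε, W, hW, hlt⟩ := hm
    rw [mem_biUnion]
    refine ⟨((a, b, r), (q, c, i₀, i₁, ε), W), ?_, ?_⟩
    · obtain ⟨w, hw⟩ := hW
      have hk1 : 1 ≤ k := by
        have := w.2
        omega
      have hcN : Nat.count (Pm a b r q c) (N + 1) ≤ N + 1 := Nat.count_le _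
      rw [hT, mem_product, mem_product, mem_product, mem_product]
      simp only [mem_product, mem_range, mem_univ, and_true, hbox, Fintype.mem_piFinset, mem_Icc]
      refine ⟨⟨fun j => abs_le.1 (hab j).1, fun j => abs_le.1 (hab j).2.1, fun j => abs_le.1 (hab j).2.2⟩, ?_⟩
      omega
    · rw [hbad]
      exact mem_filter.2 ⟨hm1, ⟨hi, hc, hW⟩, hlt⟩
  have hb : ∀ t ∈ T, ((bad t).card : ℝ) ≤ P / (N : ℝ) ^ E := by
    rintro ⟨⟨a, b, r⟩, ⟨q, c, i₀, i₁, ε⟩, W⟩ _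
    by_cases hv : i₀ ≤ i₁ ∧ i₁ + k ≤ Nat.count (Pm a b r q c) (N + 1) + 1 ∧ W.Nonempty
    · have h1 := one_par s k κ N P hκ hN2 hP L hL0 a b r q c i₀ i₁ ε hv.1 hv.2.1 W hv.2.2
      rw [hLk] at h1
      refine le_trans (Nat.cast_le.2 (card_le_card fun m hm => ?_)) h1
      rw [hbad] at hm
      rw [mem_filter] at hm ⊢
      exact ⟨hm.1, hm.2.2⟩
    · have : bad ((a, b, r), (q, c, i₀, i₁, ε), W) = ∅ := by
        rw [hbad]
        simp only
        rw [filter_eq_empty_iff]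
        intro m _ h1
        exact hv h1.1
      rw [this, card_empty, Nat.cast_zero]
      positivity
  have hTc : (T.card : ℝ) ≤ (N : ℝ) ^ (3 * s + 5) := by
    have h1 : T.card ≤ N ^ (3 * s + 5) := by
      have hbc : box.card = (2 * N + 1) ^ s := by
        rw [hbox, Fintype.card_piFinset, prod_const, card_univ, Fintype.card_fin, Int.card_Icc]
        congr 1
        omega
      rw [hT, card_product, card_product, card_product, card_product, card_product, card_product, card_product,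
        card_product, hbc, card_range, card_range, card_range, card_univ, Fintype.card_finset, Fintype.card_fin]
      have e0 : 2 * N + 1 ≤ 3 * N := by omega
      have e1 : N + 1 ≤ 2 * N := by omega
      have e2 : N + 2 ≤ 2 * N := by omega
      calc (2 * N + 1) ^ s * ((2 * N + 1) ^ s * (2 * N + 1) ^ s) *
            (((N + 1) * ((N + 1) * ((N + 2) * ((N + 2) * 2)))) * 2 ^ k) ≤
          (3 * N) ^ s * ((3 * N) ^ s * (3 * N) ^ s) *
            (((2 * N) * ((2 * N) * ((2 * N) * ((2 * N) * 2)))) * 2 ^ k) := by gcongr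
        _ = 3 ^ (3 * s) * 2 ^ (k + 5) * N ^ (3 * s + 4) := by
            rw [mul_pow]
            ring
        _ ≤ N * N ^ (3 * s + 4) := Nat.mul_le_mul_right _ hNC
        _ = N ^ (3 * s + 5) := by ring
    exact_mod_cast h1
  calc (((om P).filter fun m => ¬ Good s k E κ N m).card : ℝ) ≤ ((T.biUnion bad).card : ℝ) :=
        Nat.cast_le.2 (card_le_card hsub)
    _ ≤ ∑ t ∈ T, ((bad t).card : ℝ) := by exact_mod_cast card_biUnion_le
    _ ≤ ∑ t ∈ T, P / (N : ℝ) ^ E := sum_le_sum hb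
    _ = T.card * (P / (N : ℝ) ^ E) := by rw [sum_const, nsmul_eq_mul]
    _ ≤ (N : ℝ) ^ (3 * s + 5) * (P / (N : ℝ) ^ E) := mul_le_mul_of_nonneg_right hTc (by positivity)
    _ = P / (N : ℝ) ^ B := by
        rw [hE, pow_add (N : ℝ) B]
        field_simp

/-- the traces of the twist in terms of the Jacobi symbols modulo `m` -/
theorem key {s k : ℕ} (a b r : Fin s → ℤ) (hr : r ≠ 0) (q c i m : ℕ) (hm : Odd m) (u : Fin k)
    (hp : Pm a b r q c (pl a b r q c i u)) (e : ℤ) (he : e = 1 ∨ e = -1) :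
    (∀ j : Fin s, trace (pl a b r q c i u) (a j * m ^ 2) (b j * m ^ 3) = e * r j) ↔
      jacobiSym (pl a b r q c i u : ℤ) m = sg a b r q c (m / 2 % 2) i u * e := by
  obtain ⟨j₀, hj₀⟩ : ∃ j, r j ≠ 0 := by
    by_contra h
    push Not at h
    exact hr (funext h)
  set p := pl a b r q c i u with hpdef
  obtain ⟨hpp, -, hgood, htr⟩ := hp
  have hp2 : p ≠ 2 := by
    intro h
    refine hgood j₀ ?_
    rw [h]
    exact Dvd.intro _ rfl
  have hodd : Odd p := hpp.odd_of_ne_two hp2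
  have hrec : jacobiSym m p = (-1) ^ (p / 2 * (m / 2 % 2)) * jacobiSym (p : ℤ) m := by
    rw [jacobiSym.quadratic_reciprocity hm hodd]
    congr 1
    rw [mul_comm (m / 2) (p / 2), pow_mul, pow_mul]
    rcases neg_one_pow_eq_or ℤ (p / 2) with h | h
    · rw [h, one_pow, one_pow]
    · rw [h, neg_one_pow_eq_pow_mod_two]
  have hη : ((-1 : ℤ) ^ (p / 2 * (m / 2 % 2))) = 1 ∨ ((-1 : ℤ) ^ (p / 2 * (m / 2 % 2))) = -1 :=
    neg_one_pow_eq_or ℤ _
  have hσ : ∃ σ : ℤ, (σ = 1 ∨ σ = -1) ∧ (∀ j, trace p (a j) (b j) = σ * r j) ∧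
      sg a b r q c (m / 2 % 2) i u = (-1) ^ (p / 2 * (m / 2 % 2)) * σ := by
    by_cases h : ∀ j, trace p (a j) (b j) = r j
    · refine ⟨1, Or.inl rfl, fun j => by rw [h j, one_mul], ?_⟩
      unfold sg
      rw [← hpdef, if_pos h]
    · refine ⟨-1, Or.inr rfl, fun j => ?_, ?_⟩
      · rcases htr with h1 | h1
        · exact absurd h1 h
        · rw [h1 j, neg_one_mul]
      · unfold sg
        rw [← hpdef, if_neg h]
  obtain ⟨σ, hσ1, hσ2, hσ3⟩ := hσ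
  have htw : ∀ j : Fin s, trace p (a j * m ^ 2) (b j * m ^ 3) = jacobiSym m p * (σ * r j) := by
    intro j
    rw [← hσ2 j]
    exact trace_twist p hpp hp2 (a j) (b j) m
  rw [hσ3]
  constructor
  · intro h
    have h1 := h j₀
    rw [htw j₀, ← mul_assoc] at h1
    have h2 := mul_right_cancel₀ hj₀ h1
    rw [hrec] at h2
    rcases hη with h3 | h3 <;> rcases hσ1 with h4 | h4 <;> rw [h3, h4] at h2 ⊢ <;> linarith
  · intro h j
    rw [htw j, ← mul_assoc, hrec, h]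
    congr 1
    rcases hη with h3 | h3 <;> rcases hσ1 with h4 | h4 <;> rw [h3, h4] <;> ring

/-- from the event to the law -/
theorem good_law (s k E : ℕ) (E' : ℝ) (hE1 : 1 ≤ E') (hE : (E : ℝ) ≤ E') (X δ : ℝ) (hX1 : 1 ≤ X) (hδ0 : 0 < δ)
    (hδ1 : δ ≤ 1) (m : ℕ) (hm : Odd m) (hg : Good s k E ⌈E' / δ⌉₊ ⌊X⌋₊ m) :
    Law s k (√(4 * ((4 * E') ^ k * (k : ℝ)))) X δ m := by
  intro a b r hab hr q c i₀ i₁ hq1 hqX hi hc e he
  have hm0 : m ≠ 0 := by
    rintro rfl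
    exact absurd hm (by decide)
  set κ := ⌈E' / δ⌉₊ with hκ
  have hX0 : 0 < X := by linarith
  have hE'0 : 0 < E' := by linarith
  have hquot : 1 ≤ E' / δ := by
    rw [le_div_iff₀ hδ0]
    linarith
  have hκ1 : E' / δ ≤ κ := Nat.le_ceil _
  have hκ2 : (κ : ℝ) ≤ 2 * E' / δ := by
    have h1 := (Nat.ceil_lt_add_one (show 0 ≤ E' / δ by positivity)).le
    rw [← hκ] at h1
    rw [mul_div_assoc]
    linarith
  have hκ0 : (0 : ℝ) < κ := by linarith
  have hN0 : (0 : ℝ) < (⌊X⌋₊ : ℕ) := by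
    have : 0 < ⌊X⌋₊ := Nat.floor_pos.2 hX1
    exact_mod_cast this
  have hNX : ((⌊X⌋₊ : ℕ) : ℝ) ≤ X := Nat.floor_le hX0.le
  have hD : (0 : ℝ) ≤ (i₁ : ℝ) - i₀ := by
    have : (i₀ : ℝ) ≤ i₁ := by exact_mod_cast hi
    linarith
  have hT : Pm a b r q c = Pm a b r q (c % q) := by
    funext n
    unfold Pm Nat.ModEq
    rw [Nat.mod_mod]
  have hpr : pr a b r q c = pr a b r q (c % q) := by
    funext i
    unfold pr
    rw [hT]
  have hpl : (pl a b r q c : ℕ → Fin k → ℕ) = pl a b r q (c % q) := by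
    funext i u
    unfold pl
    rw [hpr]
  have hsg : ∀ ε, (sg a b r q c ε : ℕ → Fin k → ℤ) = sg a b r q (c % q) ε := by
    intro ε
    funext i u
    unfold sg
    rw [hpl]
  have hcount : Nat.count (Pm a b r q c) (⌊X⌋₊ + 1) = Nat.count (Pm a b r q (c % q)) (⌊X⌋₊ + 1) := by
    rw [Nat.count_eq_card_filter_range, Nat.count_eq_card_filter_range]
    refine congrArg card (filter_congr fun n _ => ?_)
    rw [hT]
  have hfl : ∀ z : ℤ, |(z : ℝ)| ≤ X → |z| ≤ ((⌊X⌋₊ : ℕ) : ℤ) := by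
    intro z hz
    have h1 : ((z.natAbs : ℕ) : ℝ) ≤ X := by
      rw [Nat.cast_natAbs]
      exact_mod_cast hz
    have h2 : z.natAbs ≤ ⌊X⌋₊ := Nat.le_floor h1
    rw [Int.abs_eq_natAbs]
    exact_mod_cast h2
  have hA : (Ico i₀ i₁).filter (fun i => ∀ (u : Fin k) (j : Fin s),
        trace (pr a b r q c (i + u)) (a j * m ^ 2) (b j * m ^ 3) = e u * r j) =
      (Ico i₀ i₁).filter fun i => ∀ u ∈ (univ : Finset (Fin k)), jacobiSym (pl a b r q c i u : ℤ) m =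
        sg a b r q c (m / 2 % 2) i u * e u := by
    refine filter_congr fun i hi' => ?_
    constructor
    · intro h u _
      exact (key a b r hr q c i m hm u (pl_facts a b r q c i₀ i₁ _ hc hi' u).1 (e u) (he u)).1 (h u)
    · intro h u
      exact (key a b r hr q c i m hm u (pl_facts a b r q c i₀ i₁ _ hc hi' u).1 (e u) (he u)).2 (h u (mem_univ _))
  have hB : (Ico i₀ i₁).filter (fun i => ∀ u : Fin k, (pr a b r q c (i + u)).Coprime m) =
      (Ico i₀ i₁).filter fun i => ∀ u ∈ (univ : Finset (Fin k)), (pl a b r q c i u).Coprime m := by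
    refine filter_congr fun i _ => ?_
    exact ⟨fun h u _ => h u, fun h u => h u (mem_univ _)⟩
  have dec : ∀ (p : ℕ → Prop) (d1 d2 : DecidablePred p) (S : Finset ℕ),
      (@Finset.filter ℕ p d1 S).card = (@Finset.filter ℕ p d2 S).card := by
    intro p d1 d2 S
    rw [Subsingleton.elim d1 d2]
  have hmain := patternw (Ico i₀ i₁) univ (pl a b r q c) (sg a b r q c (m / 2 % 2))
    (sg_sign a b r q c (m / 2 % 2)) e he m hm0
    (√(4 * ((4 * E') ^ k * (k : ℝ))) * √(X ^ δ * ((i₁ : ℝ) - i₀) / δ ^ k))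
    (fun W _ hW => ?_) (by positivity)
  · rw [card_univ, Fintype.card_fin] at hmain
    rw [hA, hB]
    refine le_trans (le_of_eq ?_) hmain
    congr 1
    congr 1
    · exact_mod_cast dec _ _ _ _
    · congr 1
      exact_mod_cast dec _ _ _ _
  have h1 := hg a b r (fun j => ⟨hfl _ (hab j).1, hfl _ (hab j).2.1, hfl _ (hab j).2.2⟩) q (c % q) i₀ i₁
    (m / 2 % 2) hq1 (Nat.le_floor hqX) (Nat.mod_lt _ (by omega)) hi (by rw [← hcount]; exact hc)
    (by omega) W hW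
  rw [← hpl, ← hsg] at h1
  have hk0 : (0 : ℝ) ≤ (k : ℝ) := Nat.cast_nonneg _
  have h2 : ((⌊X⌋₊ : ℕ) : ℝ) ^ ((E : ℝ) / κ) ≤ X ^ δ := by
    refine (Real.rpow_le_rpow hN0.le hNX (by positivity)).trans (Real.rpow_le_rpow_of_exponent_le hX1 ?_)
    rw [div_le_iff₀ hκ0]
    rw [div_le_iff₀ hδ0] at hκ1
    linarith
  have h3 : (2 * (κ : ℝ)) ^ k ≤ (4 * E') ^ k / δ ^ k := by
    have e1 : 2 * (κ : ℝ) ≤ 4 * E' / δ := by
      have : 4 * E' / δ = 2 * (2 * E' / δ) := by ring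
      rw [this]
      linarith
    calc (2 * (κ : ℝ)) ^ k ≤ (4 * E' / δ) ^ k := pow_le_pow_left₀ (by positivity) e1 _
      _ = (4 * E') ^ k / δ ^ k := div_pow _ _ _
  have h4 : (∑ i ∈ Ico i₀ i₁, ((∏ u ∈ W, sg a b r q c (m / 2 % 2) i u : ℤ) : ℝ) *
        (jacobiSym (Mx (pl a b r q c) univ W i : ℤ) m : ℝ)) ^ 2 ≤
      (4 * ((4 * E') ^ k * (k : ℝ))) * (X ^ δ * ((i₁ : ℝ) - i₀) / δ ^ k) := by
    refine h1.trans ?_
    calc ((⌊X⌋₊ : ℕ) : ℝ) ^ ((E : ℝ) / κ) * (4 * ((2 * (κ : ℝ)) ^ k * (k : ℝ)) * ((i₁ : ℝ) - i₀)) ≤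
        X ^ δ * (4 * ((4 * E') ^ k / δ ^ k * (k : ℝ)) * ((i₁ : ℝ) - i₀)) := by gcongr
      _ = _ := by ring
  rw [← Real.sqrt_mul (by positivity)]
  rw [← Real.sqrt_sq_eq_abs]
  exact Real.sqrt_le_sqrt h4

open Classical in
/-- **Theorem.** -/
theorem result (s k B : ℕ) : ∃ A C Y₀ : ℝ, ∀ (P : ℕ) (Y : ℝ), Y₀ ≤ Y →
    ((((range (P + 1)).filter fun m => Odd m ∧ ¬ ∀ X δ : ℝ, Y ≤ X → 1 / Real.log X ≤ δ → δ ≤ 1 →
      X ^ (A / δ) ≤ P → Law s k C X δ m).card : ℕ) : ℝ) ≤ P / Y ^ B := by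
  obtain ⟨E, N₀, H⟩ := one_scale s k (B + 1 + 3)
  set c : ℕ := 4 * k + 1 with hc
  set E' : ℝ := max E 1 with hE'
  have hE1 : 1 ≤ E' := le_max_right _ _
  have hEE : (E : ℝ) ≤ E' := le_max_left _ _
  obtain ⟨X₁, hX₁⟩ : ∃ X₁ : ℝ, ∀ X : ℝ, X₁ ≤ X → 2 * E' * Real.log X ≤ X - 1 := by
    have h1 := Real.isLittleO_log_id_atTop
    have h2 := h1.bound (show 0 < 1 / (4 * E') by positivity)
    obtain ⟨X₁, hX₁⟩ := Filter.eventually_atTop.1 h2
    refine ⟨max X₁ 2, fun X hX => ?_⟩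
    have h3 := hX₁ X ((le_max_left _ _).trans hX)
    have hX2 : 2 ≤ X := (le_max_right _ _).trans hX
    rw [Real.norm_of_nonneg (Real.log_nonneg (by linarith)), id, Real.norm_of_nonneg (by linarith),
      div_mul_eq_mul_div, one_mul, le_div_iff₀ (by positivity)] at h3
    linarith
  refine ⟨2 * c * E' + 1, √(4 * ((4 * E') ^ k * (k : ℝ))),
    max (max ((N₀ : ℝ) + 1) (2 ^ (B + 1))) (max X₁ 16), fun P Y hY => ?_⟩
  have a1 : (N₀ : ℝ) + 1 ≤ Y := (le_max_left _ _).trans ((le_max_left _ _).trans hY)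
  have a2 : (2 : ℝ) ^ (B + 1) ≤ Y := (le_max_right _ _).trans ((le_max_left _ _).trans hY)
  have a3 : X₁ ≤ Y := (le_max_left _ _).trans ((le_max_right _ _).trans hY)
  have a4 : 16 ≤ Y := (le_max_right _ _).trans ((le_max_right _ _).trans hY)
  have a5 : N₀ ≤ ⌊Y⌋₊ := Nat.le_floor (by linarith)
  have a6 : 2 ≤ ⌊Y⌋₊ := Nat.le_floor (by push_cast; linarith)
  refine real_height B P Y a2 _ (le_trans (Nat.cast_le.2 (card_le_card fun m hm => ?_))
    (scales_gen c (by omega) (fun (_ : Unit) κ N m => Good s k E κ N m) (B + 1) N₀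
      (fun _ P N κ h1 h2 h3 => H P N κ h1 h2 h3) () P ⌊Y⌋₊ a6 a5))
  rw [mem_filter] at hm
  rw [mem_filter, om, mem_filter]
  refine ⟨⟨hm.1, hm.2.1⟩, fun hgood => hm.2.2 fun X δ hX hδ hδ1 hXP => ?_⟩
  have hX16 : 16 ≤ X := a4.trans hX
  have hX1 : 1 ≤ X := by linarith
  have hX0 : 0 < X := by linarith
  have hlog : 0 < Real.log X := Real.log_pos (by linarith)
  have hδ0 : 0 < δ := lt_of_lt_of_le (by positivity) hδ
  have hNX : ((⌊X⌋₊ : ℕ) : ℝ) ≤ X := Nat.floor_le hX0.le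
  have hquot : 1 ≤ E' / δ := by
    rw [le_div_iff₀ hδ0]
    linarith
  have hκ2 : ((⌈E' / δ⌉₊ : ℕ) : ℝ) ≤ 2 * E' / δ := by
    have h1 := (Nat.ceil_lt_add_one (show 0 ≤ E' / δ by positivity)).le
    rw [mul_div_assoc]
    linarith
  have hκ1 : 1 ≤ ⌈E' / δ⌉₊ := Nat.one_le_ceil_iff.2 (by linarith)
  have hκN : ⌈E' / δ⌉₊ ≤ ⌊X⌋₊ := by
    have h1 : 1 / δ ≤ Real.log X := by
      rw [div_le_iff₀ hlog] at hδ
      rw [div_le_iff₀ hδ0]
      linarith
    have h2 : 2 * E' / δ ≤ 2 * E' * Real.log X := by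
      rw [div_eq_mul_one_div]
      exact mul_le_mul_of_nonneg_left h1 (by positivity)
    have h3 := hX₁ X (a3.trans hX)
    exact Nat.le_floor (by linarith)
  refine good_law s k E E' hE1 hEE X δ hX1 hδ0 hδ1 m hm.2.1
    (hgood ⌊X⌋₊ ⌈E' / δ⌉₊ (Nat.floor_mono hX) hκ1 hκN ?_)
  have h1 : (4 : ℝ) * ((⌊X⌋₊ : ℕ) : ℝ) ^ (c * ⌈E' / δ⌉₊) ≤ P := by
    refine le_trans ?_ hXP
    calc (4 : ℝ) * ((⌊X⌋₊ : ℕ) : ℝ) ^ (c * ⌈E' / δ⌉₊) ≤ X * X ^ (c * ⌈E' / δ⌉₊) := by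
          refine mul_le_mul (by linarith) (pow_le_pow_left₀ (Nat.cast_nonneg _) hNX _) (by positivity) hX0.le
      _ = X ^ (((c * ⌈E' / δ⌉₊ + 1 : ℕ) : ℝ)) := by rw [Real.rpow_natCast]; ring
      _ ≤ X ^ ((2 * c * E' + 1) / δ) := by
          refine Real.rpow_le_rpow_of_exponent_le hX1 ?_
          push_cast
          rw [add_div]
          have h2 : (c : ℝ) * ((⌈E' / δ⌉₊ : ℕ) : ℝ) ≤ c * (2 * E' / δ) :=
            mul_le_mul_of_nonneg_left hκ2 (Nat.cast_nonneg _)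
          have h3 : (1 : ℝ) ≤ 1 / δ := by
            rw [le_div_iff₀ hδ0]
            linarith
          have h4 : (c : ℝ) * (2 * E' / δ) = 2 * c * E' / δ := by ring
          linarith
  exact_mod_cast h1

end Pool.Agent.Results.MP_f1937f_nt.SignsOverTwists
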